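import Pool.Agent.N889.WU.Stm

/-!
Project WU (helper889), problem MP_9b502d_nt: part GEN, traces of `x ^ j dx` (helper362).
-/

set_option autoImplicit false

open Polynomial IntermediateField

namespace Pool.Agent.N362.WU

universe u

section Abs

variable (A K : Type u) {L : Type u} [CommRing A] [IsDomain A] [IsIntegrallyClosed A] [Field K]
  [Algebra A K] [IsFractionRing A K] [Field L] [Algebra A L] [Algebra K L] [IsScalarTower A K L]
  [FiniteDimensional K L] [Algebra.IsSeparable K L]

/-- the trace of a polynomial expression divided by `P'(x)` -/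
lemma tr_div {x : L} (hx : IsIntegral A x) (q : A[X]) :
    ∃ a : A, Algebra.trace K L ((aeval x (derivative (minpoly K x)))⁻¹ * aeval x q) =
      algebraMap A K a := by
  have hKx : IsIntegral K x := Algebra.IsIntegral.isIntegral x
  have : IsScalarTower A K⟮x⟯ L := IsScalarTower.of_algebraMap_eq fun a => rfl
  obtain ⟨g, hgdef⟩ : ∃ g : K⟮x⟯, g = AdjoinSimple.gen K x := ⟨_, rfl⟩
  have hgx : algebraMap K⟮x⟯ L g = x := by rw [hgdef]; exact AdjoinSimple.algebraMap_gen K x
  have hg : IsIntegral A g := by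
    rw [← isIntegral_algebraMap_iff (algebraMap K⟮x⟯ L).injective, hgx]
    exact hx
  have htop : Algebra.adjoin K {g} = ⊤ := by
    rw [hgdef]
    have := (IntermediateField.adjoin.powerBasis hKx).adjoin_gen_eq_top
    rwa [IntermediateField.adjoin.powerBasis_gen] at this
  have hmin : minpoly K g = minpoly K x := by
    rw [← minpoly.algebraMap_eq (algebraMap K⟮x⟯ L).injective g, hgx]
  have hdual := traceForm_dualSubmodule_adjoin A K htop hg
  have hmem : (aeval g (derivative (minpoly K g)))⁻¹ * aeval g q ∈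
      (Algebra.traceForm K K⟮x⟯).dualSubmodule
        (Subalgebra.toSubmodule (Algebra.adjoin A {g})) := by
    rw [hdual]
    exact ⟨aeval g q, aeval_mem_adjoin_singleton _ _, rfl⟩
  have h1 := hmem 1 (Subalgebra.one_mem _)
  rw [Algebra.traceForm_apply, mul_one] at h1
  obtain ⟨a, ha⟩ := Submodule.mem_one.mp h1
  refine ⟨Module.finrank K⟮x⟯ L • a, ?_⟩
  have h2 : (aeval x (derivative (minpoly K x)))⁻¹ * aeval x q =
      algebraMap K⟮x⟯ L ((aeval g (derivative (minpoly K g)))⁻¹ * aeval g q) := by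
    rw [map_mul, map_inv₀, ← aeval_algebraMap_apply, ← aeval_algebraMap_apply, hgx, hmin]
  rw [h2, ← Algebra.trace_trace (S := K⟮x⟯), Algebra.trace_algebraMap, map_nsmul, ← ha, map_nsmul]

omit [IsDomain A] [IsIntegrallyClosed A] in
/-- derivation applied to the polynomial equation -/
lemma der_aeval {k : Type u} [Field k] [Algebra k L] (D : Derivation k L L) (δ : A → A)
    (hδ : ∀ a : A, D (algebraMap A L a) = algebraMap A L (δ a)) (x : L) (P : A[X]) :
    ∃ Q : A[X], D (aeval x P) = aeval x Q + aeval x (derivative P) * D x := by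
  induction P using Polynomial.induction_on' with
  | add p q hp hq =>
    obtain ⟨P1, h1⟩ := hp
    obtain ⟨P2, h2⟩ := hq
    refine ⟨P1 + P2, ?_⟩
    rw [map_add, map_add, h1, h2, derivative_add, map_add, map_add]
    ring
  | monomial n a =>
    refine ⟨monomial n (δ a), ?_⟩
    rw [aeval_monomial, Derivation.leibniz, hδ, Derivation.leibniz_pow, aeval_monomial,
      derivative_monomial, aeval_monomial, map_mul, map_natCast]
    simp only [smul_eq_mul, nsmul_eq_mul]
    ring

/-- traces of `x ^ j dx`, abstract form -/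
lemma gen_abs {k : Type u} [Field k] [Algebra k L] (D : Derivation k L L)
    (hD : ∀ a : A, ∃ b : A, D (algebraMap A L a) = algebraMap A L b) {x : L}
    (hx : IsIntegral A x) (j : ℕ) :
    ∃ a : A, Algebra.trace K L (x ^ j * D x) = algebraMap A K a := by
  choose δ hδ using hD
  have hinj : Function.Injective (algebraMap A L) := by
    rw [IsScalarTower.algebraMap_eq A K L]
    exact (algebraMap K L).injective.comp (IsFractionRing.injective A K)
  have hmin : minpoly K x = (minpoly A x).map (algebraMap A K) :=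
    minpoly.isIntegrallyClosed_eq_field_fractions' K hx
  obtain ⟨Q, hQ⟩ := der_aeval A D δ hδ x (minpoly A x)
  rw [minpoly.aeval, map_zero] at hQ
  have hsep : aeval x (derivative (minpoly K x)) ≠ 0 :=
    (Algebra.IsSeparable.isSeparable K x).aeval_derivative_ne_zero (minpoly.aeval K x)
  have hder : aeval x (derivative (minpoly K x)) = aeval x (derivative (minpoly A x)) := by
    rw [hmin, derivative_map, aeval_map_algebraMap]
  obtain ⟨a, ha⟩ := tr_div A K hx (-(X ^ j * Q))
  refine ⟨a, ?_⟩
  rw [← ha]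
  congr 1
  rw [← hder] at hQ
  field_simp
  rw [map_neg, map_mul, map_pow, aeval_X]
  linear_combination (-(x ^ j)) * hQ

end Abs

section Inst

open Pool.Agent.N889.WU

variable {k L : Type u} [Field k] [Field L] [Algebra k L] {π : L}

lemma aeval_mem (f : k[X]) : aeval π f ∈ Oz k π := ⟨f, 1, by simp, by simp⟩

lemma aeval_ne (htr : Transcendental k π) {g : k[X]} (hg : g ≠ 0) : aeval π g ≠ 0 :=
  fun h => hg (transcendental_iff.mp htr g h)

lemma Oz_le (htr : Transcendental k π) {x : L} (hx : x ∈ Oz k π) : x ∈ k⟮π⟯ := by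
  obtain ⟨f, g, hg, h⟩ := hx
  have hg0 : aeval π g ≠ 0 := aeval_ne htr (fun h0 => hg (by rw [h0, coeff_zero]))
  have h1 : x = aeval π f / aeval π g := by rw [eq_div_iff hg0, h]
  rw [h1, mem_adjoin_simple_iff]
  exact ⟨f, g, rfl⟩

/-- polynomials which do not vanish at zero -/
def MM (k : Type u) [Field k] : Submonoid k[X] where
  carrier := {g | g.coeff 0 ≠ 0}
  mul_mem' := by
    intro a b ha hb
    simp only [Set.mem_ofPred_eq, mul_coeff_zero] at *
    exact mul_ne_zero ha hb
  one_mem' := by simp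

lemma Oz_closed (htr : Transcendental k π) : IsIntegrallyClosed (Oz k π) := by
  let _ : Algebra k[X] (Oz k π) :=
    ((aeval π : k[X] →ₐ[k] L).toRingHom.codRestrict (Oz k π) (fun f => aeval_mem f)).toAlgebra
  have hmap : ∀ f : k[X], ((algebraMap k[X] (Oz k π) f : Oz k π) : L) = aeval π f := fun _ => rfl
  have hM : MM k ≤ nonZeroDivisors k[X] := by
    intro g hg
    exact mem_nonZeroDivisors_of_ne_zero (fun h0 => hg (by rw [h0, coeff_zero]))
  have hloc : IsLocalization (MM k) (Oz k π) := by
    refine ⟨?_, ?_, ?_⟩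
    · rintro ⟨g, hg⟩
      have hg0 : aeval π g ≠ 0 := aeval_ne htr (fun h0 => hg (by rw [h0, coeff_zero]))
      refine IsUnit.of_mul_eq_one (⟨(aeval π g)⁻¹, 1, g, hg, ?_⟩ : Oz k π) ?_
      · rw [inv_mul_cancel₀ hg0, map_one]
      · apply Subtype.ext
        change aeval π g * (aeval π g)⁻¹ = 1
        exact mul_inv_cancel₀ hg0
    · rintro ⟨z, f, g, hg, h⟩
      exact ⟨(f, ⟨g, hg⟩), Subtype.ext h⟩
    · intro f g h
      refine ⟨1, ?_⟩
      have h1 : aeval π (f - g) = 0 := by
        rw [map_sub, sub_eq_zero]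
        exact congrArg Subtype.val h
      have h2 := transcendental_iff.mp htr _ h1
      rw [sub_eq_zero.mp h2]
  exact isIntegrallyClosed_of_isLocalization (Oz k π) (MM k) hM

lemma D_Oz (htr : Transcendental k π) (D : Derivation k L L) (hD : D π = 1) {a : L}
    (ha : a ∈ Oz k π) : D a ∈ Oz k π := by
  obtain ⟨f, g, hg, h⟩ := ha
  have hg0 : aeval π g ≠ 0 := aeval_ne htr (fun h0 => hg (by rw [h0, coeff_zero]))
  have h1 := congrArg D h
  rw [Derivation.leibniz, Derivation.map_aeval, Derivation.map_aeval, hD] at h1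
  simp only [smul_eq_mul, mul_one] at h1
  refine ⟨derivative f * g - f * derivative g, g * g, ?_, ?_⟩
  · rw [mul_coeff_zero]
    exact mul_ne_zero hg hg
  · rw [map_mul, map_sub, map_mul, map_mul, ← h]
    linear_combination (aeval π g) * h1

theorem t_GEN : S_GEN.{u} := by
  intro k L _ _ _ π D hs hD x hx j
  obtain ⟨htr, hfin, hsep⟩ := hs
  let _ : Algebra (Oz k π) k⟮π⟯ := RingHom.toAlgebra
    { toFun := fun a => ⟨(a : L), Oz_le htr a.2⟩
      map_one' := rfl
      map_mul' := fun _ _ => rfl
      map_zero' := rfl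
      map_add' := fun _ _ => rfl }
  have hst : IsScalarTower (Oz k π) k⟮π⟯ L := IsScalarTower.of_algebraMap_eq fun a => rfl
  have hcl : IsIntegrallyClosed (Oz k π) := Oz_closed htr
  have hff : FaithfulSMul (Oz k π) k⟮π⟯ := by
    rw [faithfulSMul_iff_algebraMap_injective]
    intro a b hab
    exact Subtype.ext (congrArg (fun z : k⟮π⟯ => (z : L)) hab)
  have hfr : IsFractionRing (Oz k π) k⟮π⟯ := by
    apply IsFractionRing.of_field
    rintro ⟨z, hz⟩
    obtain ⟨r, s, h⟩ := mem_adjoin_simple_iff k z |>.mp hz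
    refine ⟨⟨aeval π r, aeval_mem r⟩, ⟨aeval π s, aeval_mem s⟩, ?_⟩
    apply Subtype.ext
    exact h
  obtain ⟨a, ha⟩ := gen_abs (Oz k π) k⟮π⟯ D (fun a => ⟨⟨D a, D_Oz htr D hD a.2⟩, rfl⟩) hx j
  have h1 : TrL k⟮π⟯ (x ^ j * D x) = (a : L) := by
    rw [TrL, ha]
    rfl
  rw [h1]
  exact a.2

end Inst

end Pool.Agent.N362.WU
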